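import Pool.Agent.H12.Spec

set_option linter.unusedVariables false

namespace Pool.Agent.Results.MP_c32163_co.Q1E

open Matrix Finset

/-- `N i B` is the multiplicity of treatment `i` in block `B`; every block has size `k` -/
def IsDesign {v b : ℕ} (k : ℕ) (N : Fin v → Fin b → ℕ) : Prop := ∀ B, ∑ i, N i B = k

/-- concurrence -/
def conc {v b : ℕ} (N : Fin v → Fin b → ℕ) (i j : Fin v) : ℕ := ∑ B, N i B * N j B

/-- connected concurrence graph -/
def IsConn {v b : ℕ} (N : Fin v → Fin b → ℕ) : Prop :=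
  (SimpleGraph.fromRel fun i j => 0 < conc N i j).Connected

/-- information matrix -/
noncomputable def info {v b : ℕ} (k : ℕ) (N : Fin v → Fin b → ℕ) : Matrix (Fin v) (Fin v) ℝ :=
  Matrix.of fun i j =>
    (if i = j then ∑ B, (N i B : ℝ) else 0) - (∑ B, (N i B : ℝ) * (N j B : ℝ)) / (k : ℝ)

/-- the least nontrivial eigenvalue of the information matrix -/
noncomputable def theta1 {v b : ℕ} (k : ℕ) (N : Fin v → Fin b → ℕ) : ℝ :=
  sInf {t | t ∈ (info k N).charpoly.roots.erase 0}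

/-- E-optimality in the class of all connected designs with the same parameters -/
def IsEOptimal {v b : ℕ} (k : ℕ) (N : Fin v → Fin b → ℕ) : Prop :=
  IsDesign k N ∧ IsConn N ∧
    ∀ N' : Fin v → Fin b → ℕ, IsDesign k N' → IsConn N' → theta1 k N' ≤ theta1 k N

/-- pairwise variance computed from a generalized inverse `G` -/
def pairVar {v : ℕ} (G : Matrix (Fin v) (Fin v) ℝ) (i j : Fin v) : ℝ :=
  (Pi.single i 1 - Pi.single j 1) ⬝ᵥ (G *ᵥ (Pi.single i 1 - Pi.single j 1))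

open Pool.Agent.H12.Spec

lemma info_symm {v b : ℕ} (k : ℕ) (N : Fin v → Fin b → ℕ) : (info k N).IsSymm := by
  ext i j
  simp only [info, transpose_apply, of_apply]
  by_cases h : i = j
  · subst h; rfl
  · rw [if_neg h, if_neg (Ne.symm h)]
    simp only [mul_comm]

lemma info_one {v b : ℕ} (N : Fin v → Fin b → ℕ) (h : IsDesign 2 N) :
    info 2 N *ᵥ (fun _ => 1) = 0 := by
  funext i
  simp only [info, mulVec, dotProduct, of_apply, mul_one, sum_sub_distrib, sum_ite_eq, mem_univ,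
    if_true, Pi.zero_apply]
  rw [← sum_div, sum_comm]
  have : ∀ B, ∑ j, (N i B : ℝ) * (N j B : ℝ) = N i B * 2 := by
    intro B
    rw [← mul_sum]
    congr 1
    exact_mod_cast h B
  simp only [this, ← sum_mul]
  push_cast
  ring

lemma rayleigh {n : Type} [Fintype n] [DecidableEq n] [Nonempty n] (A : Matrix n n ℝ)
    (hA : A.IsSymm) (h1 : A *ᵥ (fun _ => 1) = 0) (x : n → ℝ) (c : ℝ) (hc : 0 ≤ c)
    (hx : x ⬝ᵥ (fun _ => 1) = 0) (hx0 : 0 < x ⬝ᵥ x) (hq : x ⬝ᵥ (A *ᵥ x) ≤ c * (x ⬝ᵥ x)) :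
    ∃ t ∈ A.charpoly.roots.erase 0, t ≤ c := by
  obtain ⟨u, μ, hr, hu, hn, ho, hp⟩ := exists_eigen A hA
  by_contra hcon
  push Not at hcon
  have hz : ∀ k, μ k * (u k ⬝ᵥ fun _ => 1) = 0 := fun k => by
    rw [← dot_mulVec_eigen A hA _ _ _ (hu k), h1, dotProduct_zero]
  have hex : ∃ k0, u k0 ⬝ᵥ (fun _ => (1 : ℝ)) ≠ 0 := by
    by_contra hh
    push Not at hh
    have := hp (fun _ => 1) (fun _ => 1)
    simp only [hh, mul_zero, sum_const_zero] at this
    simp [dotProduct] at this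
  obtain ⟨k0, hk0⟩ := hex
  have hμ0 : μ k0 = 0 := (mul_eq_zero.1 (hz k0)).resolve_right hk0
  have hgt : ∀ k, k ≠ k0 → c < μ k := by
    intro k hk
    apply hcon
    rw [hr, ← hμ0, ← Multiset.map_erase_of_mem _ _ (by simp : k0 ∈ Finset.univ.val)]
    refine Multiset.mem_map_of_mem _ ?_
    exact (Multiset.mem_erase_of_ne hk).2 (Finset.mem_univ k)
  have hx1 : u k0 ⬝ᵥ x = 0 := by
    have := hp x (fun _ => 1)
    rw [hx, sum_eq_single k0] at this
    · exact (mul_eq_zero.1 this.symm).resolve_right hk0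
    · intro k _ hk
      have h2 := hgt k hk
      rw [(mul_eq_zero.1 (hz k)).resolve_left (by linarith), mul_zero]
    · simp
  rw [hp x (A *ᵥ x), hp x x, mul_sum] at hq
  rw [hp x x] at hx0
  obtain ⟨k, -, hk⟩ := exists_ne_zero_of_sum_ne_zero hx0.ne'
  refine absurd hq (not_le.2 (sum_lt_sum (fun l _ => ?_) ⟨k, mem_univ _, ?_⟩))
  · rw [dot_mulVec_eigen A hA _ _ _ (hu l)]
    by_cases hl : l = k0
    · subst hl; simp [hx1]
    · nlinarith [hgt l hl, mul_self_nonneg (u l ⬝ᵥ x)]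
  · rw [dot_mulVec_eigen A hA _ _ _ (hu k)]
    have hl : k ≠ k0 := by rintro rfl; simp [hx1] at hk
    have := lt_of_le_of_ne (mul_self_nonneg (u k ⬝ᵥ x)) (Ne.symm hk)
    nlinarith [hgt k hl]

lemma shift_form {n : Type} [Fintype n] (A : Matrix n n ℝ)
    (hA : A.IsSymm) (h1 : A *ᵥ (fun _ => 1) = 0) (y : n → ℝ) (t : ℝ) :
    (y - t • fun _ => 1) ⬝ᵥ (A *ᵥ (y - t • fun _ => 1)) = y ⬝ᵥ (A *ᵥ y) := by
  have h2 : (fun _ => (1 : ℝ)) ⬝ᵥ (A *ᵥ y) = 0 := by
    rw [dot_mulVec_eigen A hA _ y 0 (by rw [h1, zero_smul]), zero_mul]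
  rw [mulVec_sub, mulVec_smul, h1, smul_zero, sub_zero, sub_dotProduct, smul_dotProduct, h2,
    smul_zero, sub_zero]

def dg {v b : ℕ} (N : Fin v → Fin b → ℕ) (i : Fin v) : ℕ := ∑ B, if N i B = 1 then 1 else 0

lemma info_diag {v b : ℕ} (N : Fin v → Fin b → ℕ) (h : IsDesign 2 N) (i : Fin v) :
    info 2 N i i = (dg N i : ℝ) / 2 := by
  simp only [info, of_apply, if_true, dg]
  push_cast
  rw [sum_div, sum_div, ← sum_sub_distrib]
  refine sum_congr rfl fun B _ => ?_
  have : N i B ≤ 2 := by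
    rw [← h B]; exact single_le_sum (f := fun j => N j B) (fun _ _ => Nat.zero_le _) (mem_univ i)
  interval_cases N i B <;> norm_num

lemma info_off {v b : ℕ} (N : Fin v → Fin b → ℕ) (i j : Fin v) (h : i ≠ j) :
    info 2 N i j = - (conc N i j : ℝ) / 2 := by
  simp only [info, of_apply, if_neg h, conc]
  push_cast
  ring

lemma dg_sum (N : Fin 6 → Fin 8 → ℕ) (h : IsDesign 2 N) : ∑ i, dg N i ≤ 16 := by
  simp only [dg]
  rw [sum_comm]
  calc ∑ B : Fin 8, ∑ i, (if N i B = 1 then 1 else 0) ≤ ∑ B : Fin 8, 2 := by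
        refine sum_le_sum fun B _ => ?_
        rw [← h B]
        refine sum_le_sum fun i _ => ?_
        split_ifs with h1 <;> omega
    _ = 16 := by simp

lemma upper (N : Fin 6 → Fin 8 → ℕ) (h : IsDesign 2 N) :
    ∃ t ∈ (info 2 N).charpoly.roots.erase 0, t ≤ 1 := by
  have hs := info_symm 2 N
  have h1 := info_one N h
  by_cases hsmall : ∃ i, dg N i ≤ 1
  · obtain ⟨i, hi⟩ := hsmall
    have hi' : (dg N i : ℝ) ≤ 1 := by exact_mod_cast hi
    have e : (Pi.single i 1 - (1 / 6 : ℝ) • fun _ => (1 : ℝ)) ⬝ᵥ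
        (Pi.single i 1 - (1 / 6 : ℝ) • fun _ => (1 : ℝ)) = (5 / 6 : ℝ) := by
      fin_cases i <;> simp [dotProduct, Fin.sum_univ_six] <;> norm_num
    refine rayleigh _ hs h1 (Pi.single i 1 - (1 / 6 : ℝ) • fun _ => (1 : ℝ)) 1 zero_le_one ?_
      (by rw [e]; norm_num) ?_
    · fin_cases i <;> simp [dotProduct, Fin.sum_univ_six] <;> norm_num
    · rw [shift_form _ hs h1, e]
      simp only [mulVec_single_one, single_dotProduct, one_mul, col_apply, info_diag N h]
      linarith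
  · push Not at hsmall
    have hsum := dg_sum N h
    have hex : ∃ i j, i ≠ j ∧ dg N i = 2 ∧ dg N j = 2 := by
      rw [Fin.sum_univ_six] at hsum
      have a0 := hsmall 0
      have a1 := hsmall 1
      have a2 := hsmall 2
      have a3 := hsmall 3
      have a4 := hsmall 4
      have a5 := hsmall 5
      by_contra hc
      push Not at hc
      have b1 := hc 0 1 (by decide)
      have b2 := hc 0 2 (by decide)
      have b3 := hc 0 3 (by decide)
      have b4 := hc 0 4 (by decide)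
      have b5 := hc 0 5 (by decide)
      have b6 := hc 1 2 (by decide)
      have b7 := hc 1 3 (by decide)
      have b8 := hc 1 4 (by decide)
      have b9 := hc 1 5 (by decide)
      have b10 := hc 2 3 (by decide)
      have b11 := hc 2 4 (by decide)
      have b12 := hc 2 5 (by decide)
      have b13 := hc 3 4 (by decide)
      have b14 := hc 3 5 (by decide)
      have b15 := hc 4 5 (by decide)
      omega
    obtain ⟨i, j, hij, hi, hj⟩ := hex
    have d1 := info_diag N h i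
    have d2 := info_diag N h j
    have d3 := info_off N i j hij
    have d4 : info 2 N j i = info 2 N i j := hs.apply i j
    rw [hi] at d1
    rw [hj] at d2
    push_cast at d1 d2
    by_cases hc : conc N i j = 0
    · have e : ((Pi.single i 1 - Pi.single j 1 : Fin 6 → ℝ)) ⬝ᵥ
          (Pi.single i 1 - Pi.single j 1) = (2 : ℝ) := by
        simp [Pi.single_apply, hij, hij.symm]; norm_num
      refine rayleigh _ hs h1 (Pi.single i 1 - Pi.single j 1) 1 zero_le_one (by simp)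
        (by rw [e]; norm_num) ?_
      rw [e]
      simp only [mulVec_sub, mulVec_single_one, sub_dotProduct, single_dotProduct, one_mul,
        Pi.sub_apply, col_apply, d1, d2, d3, d4, hc]
      norm_num
    · have hc' : (1 : ℝ) ≤ conc N i j := by exact_mod_cast Nat.one_le_iff_ne_zero.2 hc
      have e : ((Pi.single i 1 + Pi.single j 1) - (1 / 3 : ℝ) • fun _ => (1 : ℝ)) ⬝ᵥ
          ((Pi.single i 1 + Pi.single j 1) - (1 / 3 : ℝ) • fun _ => (1 : ℝ)) = (4 / 3 : ℝ) := by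
        simp only [sub_dotProduct, dotProduct_sub, add_dotProduct, dotProduct_add,
          single_dotProduct, dotProduct_single, Pi.single_apply, smul_dotProduct, dotProduct_smul]
        simp [hij, hij.symm, dotProduct]; norm_num
      refine rayleigh _ hs h1 ((Pi.single i 1 + Pi.single j 1) - (1 / 3 : ℝ) • fun _ => (1 : ℝ))
        1 zero_le_one ?_ (by rw [e]; norm_num) ?_
      · simp only [sub_dotProduct, add_dotProduct, single_dotProduct, smul_dotProduct]
        simp [dotProduct]; norm_num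
      · rw [shift_form _ hs h1, e]
        simp only [mulVec_add, mulVec_single_one, add_dotProduct, single_dotProduct, one_mul,
          Pi.add_apply, col_apply, d1, d2, d3, d4]
        linarith

def N0 : Fin 6 → Fin 8 → ℕ :=
  ![![1, 1, 1, 1, 0, 0, 0, 0], ![0, 0, 0, 0, 1, 1, 1, 1], ![1, 0, 0, 0, 1, 0, 0, 0],
    ![0, 1, 0, 0, 0, 1, 0, 0], ![0, 0, 1, 0, 0, 0, 1, 0], ![0, 0, 0, 1, 0, 0, 0, 1]]

lemma design0 : IsDesign 2 N0 := by unfold IsDesign; decide

noncomputable def C0 : Matrix (Fin 6) (Fin 6) ℝ :=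
  !![2, 0, -1/2, -1/2, -1/2, -1/2; 0, 2, -1/2, -1/2, -1/2, -1/2; -1/2, -1/2, 1, 0, 0, 0;
    -1/2, -1/2, 0, 1, 0, 0; -1/2, -1/2, 0, 0, 1, 0; -1/2, -1/2, 0, 0, 0, 1]

lemma info0 : info 2 N0 = C0 := by
  ext i j
  fin_cases i <;> fin_cases j <;> simp [info, N0, C0, Fin.sum_univ_eight] <;> norm_num

lemma psd0 (x : Fin 6 → ℝ) :
    x ⬝ᵥ x - (x ⬝ᵥ fun _ => 1) ^ 2 / 6 ≤ x ⬝ᵥ (C0 *ᵥ x) := by
  simp [C0, dotProduct, mulVec, Fin.sum_univ_six]
  nlinarith [sq_nonneg (x 0 - x 1), sq_nonneg (2 * (x 0 + x 1) - (x 2 + x 3 + x 4 + x 5))]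

lemma lower0 : ∀ t ∈ (info 2 N0).charpoly.roots.erase 0, 1 ≤ t := by
  have hs := info_symm 2 N0
  have h1 := info_one N0 design0
  rw [info0] at hs h1 ⊢
  obtain ⟨u, μ, hr, hu, hn, ho, hp⟩ := exists_eigen C0 hs
  have hz : ∀ k, μ k * (u k ⬝ᵥ fun _ => 1) = 0 := fun k => by
    rw [← dot_mulVec_eigen C0 hs _ _ _ (hu k), h1, dotProduct_zero]
  have hμ : ∀ k, 1 - (u k ⬝ᵥ fun _ => 1) ^ 2 / 6 ≤ μ k := by
    intro k
    have := psd0 (u k)
    rwa [hu k, dotProduct_smul, hn k, smul_eq_mul, mul_one] at this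
  intro t ht
  by_cases h0 : t = 0
  · exfalso
    subst h0
    have hc : 2 ≤ Multiset.count (0 : ℝ) C0.charpoly.roots := by
      have := Multiset.one_le_count_iff_mem.2 ht
      rw [Multiset.count_erase_self] at this
      omega
    rw [hr, Multiset.count_map] at hc
    have hc' : 1 < (univ.filter fun k => (0 : ℝ) = μ k).card := hc
    obtain ⟨k, hk, l, hl, hkl⟩ := one_lt_card.1 hc'
    have e1 := hμ k
    have e2 := hμ l
    rw [← (mem_filter.1 hk).2] at e1
    rw [← (mem_filter.1 hl).2] at e2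
    have e3 := hp (fun _ => 1) (fun _ => 1)
    have e4 : ((fun _ => 1 : Fin 6 → ℝ) ⬝ᵥ fun _ => 1) = 6 := by simp [dotProduct]
    have e5 := sum_le_sum_of_subset_of_nonneg (subset_univ {k, l})
      (f := fun k => (u k ⬝ᵥ fun _ => 1) * (u k ⬝ᵥ fun _ => 1)) (fun _ _ _ => mul_self_nonneg _)
    rw [sum_pair hkl, ← e3, e4] at e5
    nlinarith
  · have := Multiset.mem_of_mem_erase ht
    rw [hr] at this
    obtain ⟨k, -, rfl⟩ := Multiset.mem_map.1 this
    have := hμ k
    rw [(mul_eq_zero.1 (hz k)).resolve_left h0] at this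
    simpa using this

lemma var_eq (G : Matrix (Fin 6) (Fin 6) ℝ) (hG : C0 * G * C0 = C0) (w y : Fin 6 → ℝ)
    (h : C0 *ᵥ w = y) : y ⬝ᵥ (G *ᵥ y) = w ⬝ᵥ y := by
  have hs : C0.IsSymm := info0 ▸ info_symm 2 N0
  have e : w ⬝ᵥ ((C0 * G * C0) *ᵥ w) = (C0 *ᵥ w) ⬝ᵥ (G *ᵥ (C0 *ᵥ w)) := by
    rw [← mulVec_mulVec, ← mulVec_mulVec, dotProduct_mulVec, ← mulVec_transpose, hs.eq]
  rw [← h, ← e, hG]

theorem result : ∃ (v b k : ℕ) (N : Fin v → Fin b → ℕ) (i j m n : Fin v),
    IsEOptimal k N ∧ i ≠ j ∧ m ≠ n ∧ conc N m n < conc N i j ∧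
    (∃ G, info k N * G * info k N = info k N) ∧
    ∀ G, info k N * G * info k N = info k N → pairVar G m n < pairVar G i j := by
  refine ⟨6, 8, 2, N0, 0, 2, 0, 1, ⟨design0, ?_, fun N' h _ => ?_⟩, by decide, by decide,
    by decide, ?_, ?_⟩
  · unfold IsConn
    have : DecidableRel (SimpleGraph.fromRel fun i j => 0 < conc N0 i j).Adj := fun a b => by
      rw [SimpleGraph.fromRel_adj]; infer_instance
    refine (SimpleGraph.connected_iff_exists_forall_reachable _).2 ⟨2, fun w => ?_⟩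
    have a0 : (SimpleGraph.fromRel fun i j => 0 < conc N0 i j).Adj 2 0 := by
      rw [SimpleGraph.fromRel_adj]; decide
    have a1 : (SimpleGraph.fromRel fun i j => 0 < conc N0 i j).Adj 2 1 := by
      rw [SimpleGraph.fromRel_adj]; decide
    have a3 : (SimpleGraph.fromRel fun i j => 0 < conc N0 i j).Adj 0 3 := by
      rw [SimpleGraph.fromRel_adj]; decide
    have a4 : (SimpleGraph.fromRel fun i j => 0 < conc N0 i j).Adj 0 4 := by
      rw [SimpleGraph.fromRel_adj]; decide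
    have a5 : (SimpleGraph.fromRel fun i j => 0 < conc N0 i j).Adj 0 5 := by
      rw [SimpleGraph.fromRel_adj]; decide
    fin_cases w
    exacts [a0.reachable, a1.reachable, SimpleGraph.Reachable.refl _,
      a0.reachable.trans a3.reachable, a0.reachable.trans a4.reachable,
      a0.reachable.trans a5.reachable]
  · obtain ⟨t, ht, ht1⟩ := upper N' h
    obtain ⟨s, hs, -⟩ := upper N0 design0
    calc theta1 2 N' ≤ t := csInf_le (Multiset.finite_toSet _).bddBelow ht
      _ ≤ 1 := ht1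
      _ ≤ theta1 2 N0 := le_csInf ⟨s, hs⟩ lower0
  · rw [info0]
    refine ⟨!![0, 0, 0, 0, 0, 0; 0, 1, 1/2, 1/2, 1/2, 1/2; 0, 1/2, 5/4, 1/4, 1/4, 1/4; 0, 1/2, 1/4, 5/4, 1/4, 1/4; 0, 1/2, 1/4, 1/4, 5/4, 1/4; 0, 1/2, 1/4, 1/4, 1/4, 5/4], ?_⟩
    ext i j
    fin_cases i <;> fin_cases j <;> simp [C0, Matrix.mul_apply, Fin.sum_univ_six] <;> norm_num
  · intro G hG
    rw [info0] at hG
    unfold pairVar
    rw [var_eq G hG ![1/2, -1/2, 0, 0, 0, 0], var_eq G hG ![5/12, -1/12, -10/12, 2/12, 2/12, 2/12]]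
    · simp [dotProduct, Fin.sum_univ_six]; norm_num
    · funext i
      fin_cases i <;> simp [C0, mulVec, dotProduct, Fin.sum_univ_six] <;> norm_num
    · funext i
      fin_cases i <;> simp [C0, mulVec, dotProduct, Fin.sum_univ_six] <;> norm_num

end Pool.Agent.Results.MP_c32163_co.Q1E
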